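import Pool.Agent.SCT.StmtsC

/-!
# Squad SCT, row SPP: reduction of points
-/

set_option autoImplicit false

namespace Pool.Agent.SCT.H60

open Pool.Agent.SCT

theorem trdeg_mono {k Ω : Type} [Field k] [Field Ω] [Algebra k Ω] {A B : IntermediateField k Ω}
    (h : A ≤ B) : Algebra.trdeg k A ≤ Algebra.trdeg k B :=
  trdeg_le_of_injective (IntermediateField.inclusion h)
    (IntermediateField.inclusion_injective h)

/-- normalised coordinates of a reduction -/
theorem norm_fam {E F' Ω Ω' : Type} [Field E] [Field F'] [Field Ω] [Field Ω'] [Algebra E Ω]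
    [Algebra F' Ω'] (W : ValuationSubring Ω) (ρ : W →+* Ω') {ι : Type} (y : ι → W)
    (hρ : ∀ x, ρ x ≠ 0 → IsUnit x) :
    ∃ y' : ι → W, rat F' (fun i => ρ (y i)) ≤
        IntermediateField.adjoin F' (Set.range fun i => ρ (y' i)) ∧
      IntermediateField.adjoin E (Set.range fun i => (y' i : Ω)) ≤ rat E (fun i => (y i : Ω)) := by
  by_cases h : ∃ j, ρ (y j) ≠ 0
  · obtain ⟨j, hj⟩ := h
    obtain ⟨u, hu⟩ := hρ _ hj
    have hj' : (y j : Ω) ≠ 0 := by
      intro h0
      have : y j = 0 := by exact_mod_cast h0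
      exact hj (by rw [this, map_zero])
    have e1 : (fun i => ρ (y i) / ρ (y j)) = fun i => ρ (y i * (↑u⁻¹ : W)) := by
      funext i
      have h2 : ρ (y j) * ρ (↑u⁻¹ : W) = 1 := by
        rw [← map_mul, ← hu, Units.mul_inv, map_one]
      rw [map_mul, div_eq_iff hj, mul_assoc, mul_comm (ρ (↑u⁻¹ : W)), h2, mul_one]
    have e2 : (fun i => (y i : Ω) / (y j : Ω)) = fun i => ((y i * (↑u⁻¹ : W) : W) : Ω) := by
      funext i
      have h2 : (y j : Ω) * ((↑u⁻¹ : W) : Ω) = 1 := by
        rw [← hu]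
        exact_mod_cast congrArg (Subtype.val) (Units.mul_inv u)
      rw [div_eq_iff hj', MulMemClass.coe_mul, mul_assoc, mul_comm ((↑u⁻¹ : W) : Ω), h2, mul_one]
    refine ⟨fun i => y i * (↑u⁻¹ : W), ?_, ?_⟩
    · rw [rat_eq (k := F') (y := fun i => ρ (y i)) (j := j) hj, e1]
    · rw [rat_eq (k := E) (y := fun i => (y i : Ω)) (j := j) hj', e2]
  · push Not at h
    refine ⟨fun _ => 0, ?_, ?_⟩
    · unfold rat
      rw [IntermediateField.adjoin_le_iff]
      rintro _ ⟨i, j, rfl⟩
      simp only [h, div_zero]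
      exact zero_mem _
    · rw [IntermediateField.adjoin_le_iff]
      rintro _ ⟨i, rfl⟩
      simp only [ZeroMemClass.coe_zero]
      exact zero_mem _

theorem spp (h1 : TrrStmt) : SppStmt := by
  intro E F' Ω Ω' _ _ _ _ _ _ V π W ρ ι y z d hπ hπ' hρ hVW
  obtain ⟨y', hy1, hy2⟩ := norm_fam (E := E) (F' := F') W ρ y hρ
  obtain ⟨z', hz1, hz2⟩ := norm_fam (E := E) (F' := F') W ρ z hρ
  constructor
  · intro hd
    refine (trdeg_mono hy1).trans ?_
    exact h1 E F' Ω Ω' V π W ρ ι y' d hπ hπ' hVW ((trdeg_mono hy2).trans hd)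
  · intro hd
    have e1 : (rat F' (fun i => ρ (y i)) ⊔ rat F' (fun i => ρ (z i)) : IntermediateField F' Ω') ≤
        IntermediateField.adjoin F' (Set.range fun i => ρ (Sum.elim y' z' i)) := by
      refine sup_le (hy1.trans ?_) (hz1.trans ?_)
      · apply IntermediateField.adjoin.mono
        rintro _ ⟨i, rfl⟩
        exact ⟨Sum.inl i, rfl⟩
      · apply IntermediateField.adjoin.mono
        rintro _ ⟨i, rfl⟩
        exact ⟨Sum.inr i, rfl⟩
    have e2 : IntermediateField.adjoin E (Set.range fun i => ((Sum.elim y' z' i : W) : Ω)) ≤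
        (rat E (fun i => (y i : Ω)) ⊔ rat E (fun i => (z i : Ω)) : IntermediateField E Ω) := by
      rw [IntermediateField.adjoin_le_iff]
      rintro _ ⟨i | i, rfl⟩
      · exact (hy2.trans le_sup_left) (IntermediateField.subset_adjoin E _ ⟨i, rfl⟩)
      · exact (hz2.trans le_sup_right) (IntermediateField.subset_adjoin E _ ⟨i, rfl⟩)
    refine (trdeg_mono e1).trans ?_
    exact h1 E F' Ω Ω' V π W ρ (ι ⊕ ι) (Sum.elim y' z') d hπ hπ' hVW ((trdeg_mono e2).trans hd)

end Pool.Agent.SCT.H60
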